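import Pool.Agent.Lib.MP_d10e50_nt.K.Spec

set_option autoImplicit false

namespace Pool.Agent.Lib.MP_d10e50_nt.K

open Polynomial Finset

variable {K : Type} [Field K]

/-- The linear functional with moments `a`. -/
noncomputable def Lam (a : ℕ → K) : K[X] →ₗ[K] K := (basisMonomials K).constr K a

theorem Lam_X_pow (a : ℕ → K) (k : ℕ) : Lam a (X ^ k) = a k := by
  have := (basisMonomials K).constr_basis K a k
  rw [X_pow_eq_monomial]
  rw [coe_basisMonomials] at this
  exact this

theorem lin_mul (L : K[X] →ₗ[K] K) (f g : K[X]) (t : ℕ) (h : f.natDegree < t) :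
    L (g * f) = ∑ j ∈ range t, L (X ^ j * g) * f.coeff j := by
  conv_lhs => rw [f.as_sum_range' t h, mul_sum, map_sum]
  refine sum_congr rfl fun j _ => ?_
  rw [← C_mul_X_pow_eq_monomial, mul_comm g, mul_assoc, ← smul_eq_C_mul, map_smul, smul_eq_mul,
    mul_comm]

theorem Lam_mul (a : ℕ → K) (f : K[X]) (i t : ℕ) (h : f.natDegree < t) :
    Lam a (X ^ i * f) = ∑ j ∈ range t, a (i + j) * f.coeff j := by
  rw [lin_mul _ f _ t h]
  refine sum_congr rfl fun j _ => ?_
  rw [← pow_add, Lam_X_pow, add_comm]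

/-- The Hankel matrix of order `t` of `a` has trivial kernel. -/
def ND (a : ℕ → K) (t : ℕ) : Prop :=
  ∀ x : ℕ → K, (∀ i < t, ∑ j ∈ range t, a (i + j) * x j = 0) → ∀ j < t, x j = 0

theorem ND.det_ne {a : ℕ → K} {t : ℕ} (h : ND a t) :
    (Matrix.of fun i j : Fin t => a (i + j)).det ≠ 0 := by
  intro h0
  obtain ⟨v, hv, h1⟩ := Matrix.exists_mulVec_eq_zero_iff.2 h0
  apply hv
  funext j
  have := h (fun k => if hk : k < t then v ⟨k, hk⟩ else 0) (fun i hi => by
    have h2 := congrFun h1 ⟨i, hi⟩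
    rw [sum_range]
    simpa [Matrix.mulVec, dotProduct] using h2) j j.2
  simpa using this

theorem exists_rec {a : ℕ → K} {s : ℕ} (h : ND a s) :
    ∃ p : K[X], p.Monic ∧ p.natDegree = s ∧ ∀ i < s, Lam a (X ^ i * p) = 0 := by
  have hu : IsUnit (Matrix.of fun i j : Fin s => a (i + j)) :=
    (Matrix.isUnit_iff_isUnit_det _).2 (Ne.isUnit h.det_ne)
  obtain ⟨c, hc⟩ := Matrix.mulVec_surjective_iff_isUnit.2 hu fun i => a (i + s)
  have hd : (∑ j : Fin s, C (c j) * X ^ (j : ℕ) : K[X]).degree < s := degree_sum_fin_lt c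
  have hm : (X ^ s - ∑ j : Fin s, C (c j) * X ^ (j : ℕ) : K[X]).Monic := monic_X_pow_sub hd
  refine ⟨_, hm, ?_, fun i hi => ?_⟩
  · rw [natDegree_eq_of_degree_eq_some]
    rw [degree_sub_eq_left_of_degree_lt (by rwa [degree_X_pow]), degree_X_pow]
  · have h2 := congrFun hc ⟨i, hi⟩
    simp only [Matrix.mulVec, dotProduct, Matrix.of_apply] at h2
    rw [mul_sub, map_sub, ← pow_add, Lam_X_pow, ← h2, mul_sum, map_sum, sub_eq_zero]
    refine sum_congr rfl fun j _ => ?_
    rw [mul_left_comm, ← smul_eq_C_mul, map_smul, ← pow_add, Lam_X_pow, smul_eq_mul, mul_comm]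

theorem next_ND {a : ℕ → K} {s n : ℕ} (h : ND a s) {p : K[X]} (hm : p.Monic)
    (hd : p.natDegree = s) (h0 : ∀ i < n, Lam a (X ^ i * p) = 0) (h1 : Lam a (X ^ n * p) ≠ 0)
    (hs : s ≤ n) : ND a (n + 1) := by
  intro x hx
  set f : K[X] := ∑ j ∈ range (n + 1), monomial j (x j) with hf
  have hc : ∀ j < n + 1, f.coeff j = x j := fun j hj => by
    rw [hf, finsetSum_coeff, sum_eq_single j]
    · simp
    · intro b _ hb; rw [coeff_monomial, if_neg hb]
    · intro hj'; exact absurd (mem_range.2 hj) hj'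
  have hfd : f.natDegree ≤ n := by
    rw [hf]
    refine natDegree_sum_le_of_forall_le _ _ fun j hj => ?_
    exact (natDegree_monomial_le _).trans (by have := mem_range.1 hj; omega)
  have hL : ∀ i < n + 1, Lam a (X ^ i * f) = 0 := fun i hi => by
    rw [Lam_mul a f i (n + 1) (by omega), ← hx i hi]
    exact sum_congr rfl fun j hj => by rw [hc j (mem_range.1 hj)]
  suffices hf0 : f = 0 from fun j hj => by rw [← hc j hj, hf0, coeff_zero]
  have hdiv := modByMonic_add_div f p
  set r := f %ₘ p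
  have hgd : (f /ₘ p).natDegree ≤ n - s := by rw [natDegree_divByMonic f hm, hd]; omega
  set g := f /ₘ p
  have hrd : r.degree < s := by
    have := degree_modByMonic_lt f hm
    rwa [degree_eq_natDegree hm.ne_zero, hd] at this
  have hr0 : r = 0 := by
    by_contra hr
    have hrn : r.natDegree < s := (natDegree_lt_iff_degree_lt hr).2 hrd
    have := h r.coeff fun i hi => by
      rw [← Lam_mul a r i s hrn]
      have e : X ^ i * r = X ^ i * f - p * (X ^ i * g) := by rw [← hdiv]; ring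
      rw [e, map_sub, hL i (by omega), lin_mul _ _ p n
        (natDegree_mul_le.trans_lt (by rw [natDegree_X_pow]; omega)),
        sum_eq_zero fun j hj => by rw [h0 j (mem_range.1 hj), zero_mul]]
      simp
    exact hr (leadingCoeff_eq_zero.1 (this _ hrn))
  rw [hr0, zero_add] at hdiv
  by_contra hf0
  have hg : g ≠ 0 := fun hg => hf0 (by rw [← hdiv, hg, mul_zero])
  have h2 := hL (n - g.natDegree) (by omega)
  have e : X ^ (n - g.natDegree) * f = p * (X ^ (n - g.natDegree) * g) := by rw [← hdiv]; ring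
  rw [e, lin_mul _ _ p (n + 1) (natDegree_mul_le.trans_lt (by rw [natDegree_X_pow]; omega)),
    sum_range_succ, sum_eq_zero fun j hj => by rw [h0 j (mem_range.1 hj), zero_mul],
    zero_add] at h2
  have e2 : (X ^ (n - g.natDegree) * g).coeff n = g.leadingCoeff := by
    have := coeff_X_pow_mul g (n - g.natDegree) g.natDegree
    rwa [show g.natDegree + (n - g.natDegree) = n by omega] at this
  rw [e2] at h2
  exact mul_ne_zero h1 (leadingCoeff_ne_zero.2 hg) h2

theorem gap_rec (a : ℕ → K) (n N : ℕ) (h : ∀ t, n < t → t ≤ N → ¬ ND a t) :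
    ∃ p : K[X], p.Monic ∧ p.natDegree ≤ n ∧ ∀ i < N, Lam a (X ^ i * p) = 0 := by
  classical
  have h0 : ND a (Nat.findGreatest (ND a) n) :=
    Nat.findGreatest_spec (Nat.zero_le n) fun _ _ j hj => absurd hj (Nat.not_lt_zero j)
  obtain ⟨p, hm, hd, hp⟩ := exists_rec h0
  refine ⟨p, hm, hd ▸ Nat.findGreatest_le n, ?_⟩
  by_contra hcon
  push Not at hcon
  have hex : ∃ i, Lam a (X ^ i * p) ≠ 0 := hcon.imp fun _ h => h.2
  have h1 := Nat.find_spec hex
  have h2 : ∀ i < Nat.find hex, Lam a (X ^ i * p) = 0 := fun i hi => by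
    simpa using Nat.find_min hex hi
  have h3 : Nat.findGreatest (ND a) n ≤ Nat.find hex := by
    by_contra h4
    exact h1 (hp _ (by omega))
  have h4 := next_ND h0 hm hd h2 h1 h3
  obtain ⟨i, hi, hi'⟩ := hcon
  have h5 := Nat.find_min' hex hi'
  by_cases h6 : Nat.find hex + 1 ≤ n
  · have := Nat.le_findGreatest h6 h4
    omega
  · exact h _ (by omega) (by omega) h4

theorem aeval_T_eq (v : ℕ → K) (p : K[X]) (k : ℕ) :
    aeval (T (K := K)) p v k = Lam v (X ^ k * p) := by
  induction p using Polynomial.induction_on' with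
  | add p q hp hq => simp only [map_add, LinearMap.add_apply, Pi.add_apply, hp, hq, mul_add]
  | monomial n c =>
    rw [← C_mul_X_pow_eq_monomial, aeval_mon, mul_left_comm, ← smul_eq_C_mul, map_smul,
      ← pow_add, Lam_X_pow, smul_eq_mul]

theorem window_bound [IsAlgClosed K] (a : ℕ → K) (p : K[X]) (hm : p.Monic) (N J : ℕ)
    (hp : ∀ i < N, Lam a (X ^ i * p) = 0) (k : ℕ) (hk : p.natDegree ≤ k) (hk' : J + k < N)
    (hk0 : a (J + k) ≠ 0) (Q : Finset ℕ)
    (hQ : ∀ q ∈ Q, q.Prime ∧ (q : K) ≠ 0 ∧ ∃ r < q, ∀ t < p.natDegree,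
      J + (r + q * t) < N ∧ a (J + (r + q * t)) = 0) :
    2 ^ Q.card ≤ p.natDegree := by
  let φ : AdjoinRoot p →ₗ[K] K := Lam a ∘ₗ AdjoinRoot.modByMonicHom hm
  let x := AdjoinRoot.root p
  have hφ : ∀ j < N, φ (x ^ j) = a j := fun j hj => by
    have e : x ^ j = AdjoinRoot.mk p (X ^ j) := by simp [x]
    rw [e]
    show Lam a (AdjoinRoot.modByMonicHom hm _) = _
    rw [AdjoinRoot.modByMonicHom_mk, modByMonic_eq_sub_mul_div, map_sub, Lam_X_pow,
      lin_mul _ _ p N (by rw [natDegree_divByMonic _ hm, natDegree_X_pow]; omega),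
      sum_eq_zero fun i hi => by rw [hp i (mem_range.1 hi), zero_mul], sub_zero]
  let v : ℕ → K := fun j => φ (x ^ (J + j))
  have hv : ∀ f : K[X], Lam v f = φ (x ^ J * AdjoinRoot.mk p f) := fun f => by
    induction f using Polynomial.induction_on' with
    | add f g hf hg => simp only [map_add, mul_add, hf, hg]
    | monomial n c =>
      rw [← C_mul_X_pow_eq_monomial, ← smul_eq_C_mul, map_smul, Lam_X_pow, ← AdjoinRoot.smul_mk,
        mul_smul_comm, map_smul]
      simp [v, x, pow_add]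
  refine spec_bound v p hm.ne_zero ?_ k hk ?_ Q fun q hq => ?_
  · funext j
    rw [aeval_T_eq, hv, map_mul (AdjoinRoot.mk p), AdjoinRoot.mk_self]
    simp
  · simpa [v, hφ _ hk'] using hk0
  · obtain ⟨h1, hK, r, hr, h2⟩ := hQ q hq
    refine ⟨h1, hK, r, hr, fun t => ?_⟩
    have := hm.finite_adjoinRoot
    have := hm.free_adjoinRoot
    have hi : IsIntegral K (x ^ q) := Algebra.IsIntegral.isIntegral _
    have h3 := hi.mem_span_pow (y := (x ^ q) ^ t) ⟨X ^ t, by simp⟩
    have h4 : (minpoly K (x ^ q)).natDegree ≤ p.natDegree := by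
      refine (minpoly.natDegree_le _).trans ?_
      rw [(AdjoinRoot.powerBasis' hm).finrank, AdjoinRoot.powerBasis'_dim]
    have h5 : φ (x ^ (J + r) * (x ^ q) ^ t) = 0 := by
      refine Submodule.span_induction (p := fun y _ => φ (x ^ (J + r) * y) = 0) ?_ ?_ ?_ ?_ h3
      · rintro _ ⟨i, rfl⟩
        have := h2 i (i.2.trans_le h4)
        beta_reduce
        rw [← pow_mul, ← pow_add, add_assoc, hφ _ this.1, this.2]
      · simp
      · intro y z _ _ hy hz; rw [mul_add, map_add, hy, hz, add_zero]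
      · intro c y _ hy; rw [mul_smul_comm, map_smul, hy, smul_zero]
    rw [← pow_mul, ← pow_add, add_assoc] at h5
    simp [v, h5]

end Pool.Agent.Lib.MP_d10e50_nt.K
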