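import Pool.Agent.Lib.MP_d10e50_nt.K.Hankel

set_option autoImplicit false

namespace Pool.Agent.Lib.MP_d10e50_nt.K

open Polynomial Finset

variable {K : Type} [Field K]

/-- Odd primes up to `y` other than the characteristic. -/
noncomputable def oddP (K : Type) [Field K] (y : ℕ) : Finset ℕ :=
  (((range (y + 1)).filter Nat.Prime).erase 2).erase (ringChar K)

theorem oddP_card (y : ℕ) : Nat.primeCounting y - 2 ≤ (oddP K y).card := by
  have h0 : Nat.primeCounting y = ((range (y + 1)).filter Nat.Prime).card := by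
    rw [Nat.primeCounting, Nat.primeCounting', Nat.count_eq_card_filter_range]
  have h1 := pred_card_le_card_erase (s := (range (y + 1)).filter Nat.Prime) (a := 2)
  have h2 := pred_card_le_card_erase (s := ((range (y + 1)).filter Nat.Prime).erase 2)
    (a := ringChar K)
  unfold oddP
  omega

theorem oddP_mem {y q : ℕ} (h : q ∈ oddP K y) : q.Prime ∧ q ≠ 2 ∧ q ≤ y ∧ (q : K) ≠ 0 := by
  obtain ⟨h1, h2⟩ := mem_erase.1 h
  obtain ⟨h3, h4⟩ := mem_erase.1 h2
  obtain ⟨h5, h6⟩ := mem_filter.1 h4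
  refine ⟨h6, h3, by have := mem_range.1 h5; omega, fun h0 => ?_⟩
  rcases (Nat.dvd_prime h6).1 ((ringChar.spec K q).1 h0) with h7 | h7
  · exact CharP.ringChar_ne_one h7
  · exact h1 h7.symm

theorem exists_ND [IsAlgClosed K] {a : ℕ → K} (ha : ∀ k, a k ≠ 0 ↔ k.Prime) (c : ℕ)
    (hc : c = 3 ∨ c = 5) (n y : ℕ) (hy : 3 ≤ y) (h : n < 2 ^ (Nat.primeCounting y - 2)) :
    ∃ t, n < t ∧ t ≤ y * (n + 3) + 5 ∧ ND (fun k => a (2 * k + c)) t := by
  by_contra hcon
  push Not at hcon
  obtain ⟨p, hm, hd, hp⟩ := gap_rec (fun k => a (2 * k + c)) n _ hcon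
  obtain ⟨P, hP, h1, h2⟩ := Nat.exists_prime_lt_and_le_two_mul (2 * (y + n) + c) (by omega)
  have hodd : P % 2 = 1 := hP.eq_two_or_odd.resolve_left (by omega)
  have hyn : 3 * n ≤ y * n := Nat.mul_le_mul_right n hy
  have := window_bound (fun k => a (2 * k + c)) p hm _ y hp ((P - c) / 2 - y) (by omega)
    (by rw [mul_add]; omega)
    (by
      show a (2 * (y + ((P - c) / 2 - y)) + c) ≠ 0
      rw [show 2 * (y + ((P - c) / 2 - y)) + c = P by omega]
      exact (ha P).2 hP) (oddP K y)
    (fun q hq => by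
      obtain ⟨h4, h5, h6, hK⟩ := oddP_mem hq
      have hq2 : q % 2 = 1 := h4.eq_two_or_odd.resolve_left h5
      obtain ⟨u, rfl⟩ : ∃ u, q = 2 * u + 1 := ⟨q / 2, by omega⟩
      refine ⟨h4, hK, (u * (2 * y + c)) % (2 * u + 1), Nat.mod_lt _ (by omega),
        fun t ht => ⟨?_, ?_⟩⟩
      · have h7 : (u * (2 * y + c)) % (2 * u + 1) < 2 * u + 1 := Nat.mod_lt _ (by omega)
        have h8 : (2 * u + 1) * (t + 1) ≤ y * n := Nat.mul_le_mul h6 (by omega)
        rw [mul_add y]
        rw [mul_add, mul_one] at h8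
        omega
      · by_contra hne
        have h7 := (ha _).1 hne
        have h8 : 2 * u + 1 ∣ 2 * (y + ((u * (2 * y + c)) % (2 * u + 1) + (2 * u + 1) * t)) + c := by
          have h9 := Nat.mod_add_div (u * (2 * y + c)) (2 * u + 1)
          set r := (u * (2 * y + c)) % (2 * u + 1)
          set d := (u * (2 * y + c)) / (2 * u + 1)
          have h10 : 2 * (y + (r + (2 * u + 1) * t)) + c + (2 * u + 1) * (2 * d) =
              (2 * u + 1) * (2 * y + c + 2 * t) := by nlinarith
          exact (Nat.dvd_add_left (Dvd.intro _ rfl)).1 (h10 ▸ Dvd.intro _ rfl)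
        have := (Nat.prime_dvd_prime_iff_eq h4 h7).1 h8
        omega)
  have h3 : 2 ^ (Nat.primeCounting y - 2) ≤ 2 ^ (oddP K y).card :=
    Nat.pow_le_pow_right (by norm_num) (oddP_card y)
  omega

theorem sum_two (f : ℕ → K) (m : ℕ) :
    ∑ j ∈ range (2 * m), f j = ∑ a ∈ range m, (f (2 * a) + f (2 * a + 1)) := by
  induction m with
  | zero => simp
  | succ m ih => rw [mul_add, mul_one, sum_range_succ, sum_range_succ, ih, sum_range_succ, add_assoc]

theorem even_zero {a : ℕ → K} (ha : ∀ k, a k ≠ 0 ↔ k.Prime) (k : ℕ) (hk : k % 2 = 0)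
    (h0 : k ≠ 0) : a (k + 2) = 0 := by
  by_contra h
  have := ((ha _).1 h).eq_two_or_odd
  omega

theorem ND_even {a : ℕ → K} (ha : ∀ k, a k ≠ 0 ↔ k.Prime) {m : ℕ}
    (h : ND (fun k => a (2 * k + 3)) m) : ND (fun k => a (k + 2)) (2 * m) := by
  intro x hx
  beta_reduce at hx
  have h1 := h (fun a => x (2 * a)) fun b hb => by
    rw [← hx (2 * b + 1) (by omega), sum_two]
    refine sum_congr rfl fun u _ => ?_
    rw [even_zero ha (2 * b + 1 + (2 * u + 1)) (by omega) (by omega),
      show 2 * b + 1 + 2 * u + 2 = 2 * (b + u) + 3 by omega]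
    simp
  have h2 := h (fun a => x (2 * a + 1)) fun b hb => by
    rw [← hx (2 * b) (by omega), sum_two]
    refine sum_congr rfl fun u hu => ?_
    rw [h1 u (mem_range.1 hu), show 2 * b + (2 * u + 1) + 2 = 2 * (b + u) + 3 by omega]
    simp
  intro j hj
  obtain ⟨u, rfl | rfl⟩ := Nat.even_or_odd' j
  · exact h1 u (by omega)
  · exact h2 u (by omega)

theorem ND_odd {a : ℕ → K} (ha : ∀ k, a k ≠ 0 ↔ k.Prime) {m : ℕ}
    (h : ND (fun k => a (2 * k + 5)) m) : ND (fun k => a (k + 2)) (2 * m + 1) := by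
  intro x hx
  beta_reduce at hx
  have h1 := h (fun a => x (2 * a + 1)) fun b hb => by
    rw [← hx (2 * b + 2) (by omega), sum_range_succ, sum_two,
      even_zero ha (2 * b + 2 + 2 * m) (by omega) (by omega), zero_mul, add_zero]
    refine sum_congr rfl fun u _ => ?_
    rw [even_zero ha (2 * b + 2 + 2 * u) (by omega) (by omega),
      show 2 * b + 2 + (2 * u + 1) + 2 = 2 * (b + u) + 5 by omega]
    simp
  have h0 : x 0 = 0 := by
    have := hx 0 (by omega)
    rw [sum_range_succ', sum_two, sum_eq_zero fun u hu => by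
      rw [h1 u (mem_range.1 hu), even_zero ha (0 + (2 * u + 1 + 1)) (by omega) (by omega)]
      simp, zero_add] at this
    exact (mul_eq_zero.1 this).resolve_left ((ha _).2 Nat.prime_two)
  have h2 := h (fun a => x (2 * a + 1 + 1)) fun b hb => by
    rw [← hx (2 * b + 1) (by omega), sum_range_succ', sum_two, h0, mul_zero, add_zero]
    refine sum_congr rfl fun u hu => ?_
    rw [h1 u (mem_range.1 hu), show 2 * b + 1 + (2 * u + 1 + 1) + 2 = 2 * (b + u) + 5 by omega]
    simp
  intro j hj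
  obtain ⟨u, rfl | rfl⟩ := Nat.even_or_odd' j
  · rcases u with _ | u
    · exact h0
    · exact h2 u (by omega)
  · exact h1 u (by omega)

open Filter Real in
theorem numeric : ∀ᶠ n : ℕ in atTop, ∃ y : ℕ, 3 ≤ y ∧
    n / 2 < 2 ^ (Nat.primeCounting y - 2) ∧
    ((2 * (y * (n / 2 + 3) + 5) + 1 : ℕ) : ℝ) ≤ 3 * n * Real.log n * Real.log (Real.log n) := by
  have hl : Tendsto (fun n : ℕ => Real.log n) atTop atTop :=
    tendsto_log_atTop.comp tendsto_natCast_atTop_atTop
  have hll : Tendsto (fun n : ℕ => Real.log (Real.log n)) atTop atTop :=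
    tendsto_log_atTop.comp hl
  filter_upwards [hl.eventually_ge_atTop 1, hll.eventually_ge_atTop 1600,
    eventually_ge_atTop 400] with n h1 h2 h3
  set L := Real.log n with hL
  set M := Real.log L with hM
  have hL0 : 0 < L := by linarith
  have hML : M ≤ L := (Real.log_le_sub_one_of_pos hL0).trans (by linarith)
  have hM0 : 0 < M := by linarith
  have hLM : 1600 * 1600 ≤ L * M := by nlinarith
  set y := ⌈5 / 2 * (L * M)⌉₊ with hy
  have hy1 : 5 / 2 * (L * M) ≤ y := Nat.le_ceil _
  have hy2 : (y : ℝ) < 5 / 2 * (L * M) + 1 := Nat.ceil_lt_add_one (by linarith)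
  have hy3 : 3 ≤ y := by
    have : (3 : ℝ) ≤ y := by linarith
    exact_mod_cast this
  have hn : (400 : ℝ) ≤ n := by exact_mod_cast h3
  refine ⟨y, hy3, ?_, ?_⟩
  · have hy0 : (0 : ℝ) < y := by linarith
    -- log M ≤ M / 20
    have hs : Real.log M ≤ M / 20 := by
      have e : Real.log M = 2 * Real.log (√M) := by
        rw [Real.log_sqrt hM0.le]; ring
      have h4 := Real.log_le_sub_one_of_pos (Real.sqrt_pos.2 hM0)
      have h5 : (40 : ℝ) ≤ √M := Real.le_sqrt_of_sq_le (by linarith)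
      have h6 : √M * √M = M := Real.mul_self_sqrt hM0.le
      nlinarith
    have hlog : Real.log (y + 1) ≤ 11 / 10 * M := by
      have h4 : Real.log (y + 1) ≤ Real.log (3 * (L * M)) :=
        Real.log_le_log (by linarith) (by linarith)
      rw [Real.log_mul (by norm_num) (by positivity), Real.log_mul hL0.ne' hM0.ne'] at h4
      have h5 := Real.log_le_sub_one_of_pos (x := 3) (by norm_num)
      linarith
    have hlogy : Real.log y ≤ 11 / 10 * M :=
      (Real.log_le_log hy0 (by linarith)).trans hlog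
    have hlogy0 : 0 < Real.log y := Real.log_pos (by linarith)
    have h5 := Chebyshev.pi_ge y
    rw [div_le_iff₀ hlogy0] at h5
    have h8 : y * (0.6931471803 : ℝ) ≤ y * Real.log 2 :=
      mul_le_mul_of_nonneg_left Real.log_two_gt_d9.le hy0.le
    have h9 : (Nat.primeCounting y : ℝ) * Real.log y ≤ Nat.primeCounting y * (11 / 10 * M) :=
      mul_le_mul_of_nonneg_left hlogy (Nat.cast_nonneg _)
    have h10 : (3 / 2 * L + 3) * M ≤ (Nat.primeCounting y : ℝ) * M := by nlinarith
    have h11 : 3 / 2 * L + 3 ≤ (Nat.primeCounting y : ℝ) := le_of_mul_le_mul_right h10 hM0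
    have h12 : 2 ≤ Nat.primeCounting y := by
      have : (2 : ℝ) ≤ Nat.primeCounting y := by linarith
      exact_mod_cast this
    have h13 : Real.log n < Real.log ((2 : ℝ) ^ (Nat.primeCounting y - 2)) := by
      rw [Real.log_pow, Nat.cast_sub h12]
      have := Real.log_two_gt_d9
      push_cast
      nlinarith
    have h14 := (Real.log_lt_log_iff (by linarith) (by positivity)).1 h13
    have h15 : n < 2 ^ (Nat.primeCounting y - 2) := by exact_mod_cast h14
    exact (Nat.div_le_self n 2).trans_lt h15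
  · have h4 : 2 * (y * (n / 2 + 3) + 5) + 1 ≤ y * (n + 6) + 11 := by
      have : y * (2 * (n / 2 + 3)) ≤ y * (n + 6) := Nat.mul_le_mul_left _ (by omega)
      nlinarith
    have h5 : ((2 * (y * (n / 2 + 3) + 5) + 1 : ℕ) : ℝ) ≤ y * (n + 6) + 11 := by exact_mod_cast h4
    have h6 : (y : ℝ) * (n + 6) ≤ (5 / 2 * (L * M) + 1) * (n + 6) :=
      mul_le_mul_of_nonneg_right hy2.le (by linarith)
    have e : 3 * n * L * M = 3 * n * (L * M) := by ring
    rw [e]
    nlinarith

end Pool.Agent.Lib.MP_d10e50_nt.K
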