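import Mathlib

set_option autoImplicit false

namespace Pool.Agent.Lib.MP_d10e50_nt.K

open Polynomial Finset

variable {K : Type} [Field K]

/-- The shift operator on sequences. -/
noncomputable def T : Module.End K (ℕ → K) where
  toFun w k := w (k + 1)
  map_add' _ _ := rfl
  map_smul' _ _ := rfl

theorem T_pow (e : ℕ) (w : ℕ → K) (k : ℕ) : (T (K := K) ^ e) w k = w (k + e) := by
  induction e generalizing w k with
  | zero => rfl
  | succ e ih =>
    rw [pow_succ, Module.End.mul_apply, ih]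
    rfl

/-- Multiplication by the character `k ↦ c ^ k`. -/
noncomputable def D (c : K) : Module.End K (ℕ → K) where
  toFun w k := c ^ k * w k
  map_add' _ _ := by funext k; simp [mul_add]
  map_smul' _ _ := by funext k; simp; ring

theorem aeval_mon (a : K) (n : ℕ) (w : ℕ → K) (k : ℕ) :
    aeval (T (K := K)) (C a * X ^ n) w k = a * w (k + n) := by
  simp only [map_mul, aeval_C, map_pow, aeval_X, Module.End.mul_apply,
    Module.algebraMap_end_apply, Pi.smul_apply, smul_eq_mul, T_pow]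

theorem D_apply (c : K) (w : ℕ → K) (k : ℕ) : D c w k = c ^ k * w k := rfl

theorem aeval_D (c d : K) (h : c * d = 1) (g : K[X]) (w : ℕ → K) :
    aeval (T (K := K)) (g.comp (C d * X)) (D c w) = D c (aeval (T (K := K)) g w) := by
  induction g using Polynomial.induction_on' with
  | add p q hp hq => simp only [add_comp, map_add, LinearMap.add_apply, hp, hq]
  | monomial n a =>
    funext k
    have e : (monomial n a).comp (C d * X) = C (a * d ^ n) * X ^ n := by
      rw [← C_mul_X_pow_eq_monomial]; simp [mul_pow, mul_assoc]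
    rw [e, ← C_mul_X_pow_eq_monomial, aeval_mon, D_apply, D_apply, aeval_mon, pow_add]
    have : c ^ n * d ^ n = 1 := by rw [← mul_pow, h, one_pow]
    linear_combination (a * c ^ k * w (k + n)) * this

/-- The spectrum of a sequence: common roots of all annihilating polynomials. -/
def Spec (w : ℕ → K) (α : K) : Prop := ∀ g : K[X], aeval (T (K := K)) g w = 0 → g.eval α = 0

theorem exists_spec [IsAlgClosed K] (w : ℕ → K) (p : K[X]) (hp : p ≠ 0) (hw : aeval (T (K := K)) p w = 0)
    (k : ℕ) (hk : p.natDegree ≤ k) (hk0 : w k ≠ 0) : ∃ α, α ≠ 0 ∧ Spec w α := by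
  classical
  let I : Ideal K[X] :=
    { carrier := {g | aeval (T (K := K)) g w = 0}
      add_mem' := fun {a b} ha hb => by
        simp only [Set.mem_ofPred_eq, map_add, LinearMap.add_apply] at *
        rw [ha, hb, add_zero]
      zero_mem' := by simp
      smul_mem' := fun c a ha => by
        simp only [Set.mem_ofPred_eq, smul_eq_mul, map_mul, Module.End.mul_apply] at *
        rw [ha, map_zero] }
  obtain ⟨μ, hμ⟩ := (IsPrincipalIdealRing.principal I).principal
  have hdvd : ∀ g, aeval (T (K := K)) g w = 0 → μ ∣ g := fun g hg => by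
    have : g ∈ I := hg
    rw [hμ] at this
    exact Ideal.mem_span_singleton.1 this
  have hμI : aeval (T (K := K)) μ w = 0 := by
    have : μ ∈ I := by rw [hμ]; exact Ideal.mem_span_singleton_self μ
    exact this
  have hμp := hdvd p hw
  have hμ0 : μ ≠ 0 := fun h => hp (by simpa [h] using hμp)
  by_contra hcon
  push Not at hcon
  have hr : ∀ α ∈ μ.roots, α = 0 := fun α hα => by
    by_contra h0
    apply hcon α h0
    intro g hg
    exact eval_eq_zero_of_dvd_of_eval_eq_zero (hdvd g hg) (mem_roots hμ0 |>.1 hα)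
  have h1 := (IsAlgClosed.splits μ).eq_prod_roots
  have h2 : μ.roots = Multiset.replicate μ.roots.card 0 := Multiset.eq_replicate.2 ⟨rfl, hr⟩
  rw [h2] at h1
  simp only [Multiset.map_replicate, map_zero, sub_zero, Multiset.prod_replicate] at h1
  have h3 : μ.roots.card ≤ k :=
    (card_roots' μ).trans ((natDegree_le_of_dvd hμp hp).trans hk)
  generalize μ.roots.card = e at h1 h3
  have h4 := congrFun hμI (k - e)
  rw [h1] at h4
  rw [aeval_mon, Nat.sub_add_cancel h3] at h4
  exact mul_ne_zero (leadingCoeff_ne_zero.2 hμ0) hk0 h4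

theorem spec_step [IsAlgClosed K] (w : ℕ → K) (q r : ℕ) (hq : q.Prime) (hK : (q : K) ≠ 0)
    (hw : ∀ t, w (r + q * t) = 0) (hr : r < q)
    (α : K) (hα : Spec w α) : ∃ ζ : K, orderOf ζ = q ∧ Spec w (α * ζ) := by
  classical
  have : NeZero (q : K) := ⟨hK⟩
  obtain ⟨ζ, hζ⟩ : ∃ ζ : K, IsPrimitiveRoot ζ q := HasEnoughRootsOfUnity.exists_primitiveRoot K q
  have hζ0 : ζ ≠ 0 := hζ.ne_zero hq.ne_zero
  by_contra hcon
  push Not at hcon
  have h1 : ∀ j : ℕ, ∃ g : K[X], j ∈ Ico 1 q → aeval (T (K := K)) g w = 0 ∧ g.eval (α * ζ ^ j) ≠ 0 := by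
    intro j
    by_cases hj : j ∈ Ico 1 q
    · have hj' := mem_Ico.1 hj
      have hc : j.Coprime q := (Nat.coprime_of_lt_prime (by omega) hj'.2 hq).symm
      have := hcon (ζ ^ j) (hζ.pow_of_coprime j hc).eq_orderOf.symm
      unfold Spec at this
      push Not at this
      obtain ⟨g, hg⟩ := this
      exact ⟨g, fun _ => hg⟩
    · exact ⟨0, fun h => absurd h hj⟩
  choose g hg using h1
  set G : K[X] := ∏ j ∈ Ico 1 q, (g j).comp (C (ζ ^ j) * X) with hG
  have hGα : G.eval α ≠ 0 := by
    rw [hG, eval_prod]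
    refine prod_ne_zero_iff.2 fun j hj => ?_
    rw [eval_comp, eval_mul, eval_C, eval_X, mul_comm]
    exact (hg j hj).2
  apply hGα
  apply hα
  have hdec : w = -∑ j ∈ Ico 1 q, (ζ ^ j) ^ r • D (ζ ^ j)⁻¹ w := by
    funext k
    have hs : ∑ j ∈ range q, (ζ ^ j) ^ r * (((ζ ^ j)⁻¹) ^ k * w k) = 0 := by
      set x : K := ζ ^ r * (ζ⁻¹) ^ k with hx
      have e : ∀ j, (ζ ^ j) ^ r * (((ζ ^ j)⁻¹) ^ k * w k) = x ^ j * w k := fun j => by
        rw [hx, mul_pow, ← inv_pow, ← pow_mul, ← pow_mul, ← pow_mul, ← pow_mul, mul_comm j r,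
          mul_comm j k, mul_assoc]
      simp only [e]
      rw [← sum_mul]
      by_cases hx1 : x = 1
      · have h2 : ζ ^ k = ζ ^ r := by
          rw [hx, inv_pow] at hx1
          field_simp at hx1
          exact hx1.symm
        have h3 : k % q = r := by
          have h4 : ζ ^ (k % q) = ζ ^ r := by
            rw [← h2]
            conv_rhs => rw [← Nat.mod_add_div k q, pow_add, pow_mul, hζ.pow_eq_one, one_pow, mul_one]
          exact hζ.pow_inj (Nat.mod_lt _ hq.pos) hr h4
        have h5 := hw (k / q)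
        rw [← h3, Nat.mod_add_div] at h5
        rw [h5, mul_zero]
      · have h2 : x ^ q = 1 := by
          rw [hx, mul_pow, ← pow_mul, ← pow_mul, mul_comm r q, mul_comm k q, pow_mul, pow_mul,
            inv_pow, hζ.pow_eq_one]
          simp
        rw [geom_sum_eq hx1, h2]
        simp
    rw [range_eq_Ico, sum_eq_sum_Ico_succ_bot hq.pos] at hs
    simp only [Pi.neg_apply, Finset.sum_apply, Pi.smul_apply, smul_eq_mul, D_apply]
    simp only [pow_zero, one_pow, inv_one, one_mul, zero_add] at hs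
    linear_combination hs
  rw [hdec, map_neg, map_sum, neg_eq_zero]
  refine sum_eq_zero fun j hj => ?_
  rw [map_smul, hG, ← prod_erase_mul _ _ hj, map_mul, Module.End.mul_apply,
    aeval_D _ _ (inv_mul_cancel₀ (pow_ne_zero j hζ0)), (hg j hj).1]
  simp

theorem spec_cube [IsAlgClosed K] (w : ℕ → K) (Q : Finset ℕ)
    (hQ : ∀ q ∈ Q, q.Prime ∧ (q : K) ≠ 0 ∧ ∃ r < q, ∀ t, w (r + q * t) = 0)
    (α : K) (h0 : α ≠ 0) (hα : Spec w α) : ∃ A : Finset K, A.card = 2 ^ Q.card ∧
      ∀ β ∈ A, Spec w β ∧ β ^ (∏ q ∈ Q, q) = α ^ (∏ q ∈ Q, q) := by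
  classical
  induction Q using Finset.induction_on generalizing α with
  | empty => exact ⟨{α}, by simp, by simpa using hα⟩
  | insert q Q hq ih =>
    obtain ⟨hp, hK, r, hr, hw⟩ := hQ q (mem_insert_self _ _)
    obtain ⟨η, h3, h4⟩ := spec_step w q r hp hK hw hr _ hα
    have hη : η ^ q = 1 := h3 ▸ pow_orderOf_eq_one η
    have hη0 : η ≠ 0 := fun h => by
      rw [h, zero_pow hp.ne_zero] at hη
      exact zero_ne_one hη
    obtain ⟨A, a1, a2⟩ := ih (fun p hp => hQ p (mem_insert_of_mem hp)) α h0 hα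
    obtain ⟨B, b1, b2⟩ := ih (fun p hp => hQ p (mem_insert_of_mem hp)) (α * η)
      (mul_ne_zero h0 hη0) h4
    have hd : Disjoint A B := by
      refine disjoint_left.2 fun β ha hb => ?_
      have e := (a2 β ha).2.symm.trans (b2 β hb).2
      rw [mul_pow] at e
      have e2 : η ^ (∏ q ∈ Q, q) = 1 :=
        (mul_left_cancel₀ (pow_ne_zero _ h0) ((mul_one _).trans e)).symm
      have e3 := orderOf_dvd_of_pow_eq_one e2
      rw [h3] at e3
      obtain ⟨p, hp1, hp2⟩ := (Prime.dvd_finsetProd_iff hp.prime _).1 e3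
      have := (Nat.prime_dvd_prime_iff_eq hp (hQ p (mem_insert_of_mem hp1)).1).1 hp2
      exact hq (this ▸ hp1)
    refine ⟨A ∪ B, ?_, fun β hβ => ?_⟩
    · rw [card_union_of_disjoint hd, a1, b1, card_insert_of_notMem hq, pow_succ]
      ring
    · rw [prod_insert hq, mul_comm q, pow_mul, pow_mul]
      rcases mem_union.1 hβ with h | h
      · exact ⟨(a2 β h).1, by rw [(a2 β h).2]⟩
      · refine ⟨(b2 β h).1, ?_⟩
        rw [(b2 β h).2, mul_pow, mul_pow, ← pow_mul η, mul_comm _ q, pow_mul η, hη, one_pow,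
          mul_one]

/-- A linear recurrence of order `s` with a solution that is not eventually zero and that
vanishes on a residue class modulo every prime of `Q` has `2 ^ |Q| ≤ s`. -/
theorem spec_bound [IsAlgClosed K] (w : ℕ → K) (p : K[X]) (hp : p ≠ 0)
    (hw : aeval (T (K := K)) p w = 0) (k : ℕ) (hk : p.natDegree ≤ k) (hk0 : w k ≠ 0)
    (Q : Finset ℕ) (hQ : ∀ q ∈ Q, q.Prime ∧ (q : K) ≠ 0 ∧ ∃ r < q, ∀ t, w (r + q * t) = 0) :
    2 ^ Q.card ≤ p.natDegree := by
  classical
  obtain ⟨α, h0, hα⟩ := exists_spec w _ hp hw k hk hk0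
  obtain ⟨A, h1, h2⟩ := spec_cube w Q hQ α h0 hα
  have h3 : A ⊆ p.roots.toFinset := fun β hβ =>
    Multiset.mem_toFinset.2 ((mem_roots hp).2 ((h2 β hβ).1 p hw))
  exact h1 ▸ (card_le_card h3).trans ((Multiset.toFinset_card_le _).trans (card_roots' p))

end Pool.Agent.Lib.MP_d10e50_nt.K
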